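import Pool.Agent.Q17.AM.Mgd

/-!
# McKay bijections with degrees congruent up to sign, and a congruence modulo a prime `r`

`IsIrr χ` (from `Pool.Agent.H254R3.IN.Defs`) says that `χ` is an irreducible complex character.
-/

set_option autoImplicit false

open scoped Classical

namespace Pool.Agent.Results.MP_5ecade_al.CongruenceModuloR

open Pool.Agent.H254R3.IN (IsIrr)

/-- the irreducible characters of `G` of degree prime to `p` -/
def irrPrime (p : ℕ) (G : Type) [Group G] : Set (G → ℂ) :=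
  {χ | IsIrr χ ∧ ∃ n : ℕ, (n : ℂ) = χ 1 ∧ ¬ p ∣ n}

/-- the number of Galois conjugates of `χ`; for a character it is the degree of `ℚ(χ)` over `ℚ` -/
noncomputable def conjugates {G : Type} (χ : G → ℂ) : ℕ :=
  {ψ : G → ℂ | ∃ s : ℂ ≃+* ℂ, ψ = fun g => s (χ g)}.ncard

/-- the characters in `irrPrime p G` of degree congruent to `k` or `- k` modulo `p`, with a number of
Galois conjugates prime to `r` -/
def counted (p r k : ℕ) (G : Type) [Group G] : Set (G → ℂ) :=
  {χ | χ ∈ irrPrime p G ∧ (∃ n : ℕ, (n : ℂ) = χ 1 ∧ ((n : ZMod p) = k ∨ (n : ZMod p) = -k)) ∧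
    ¬ r ∣ conjugates χ}

/-- the wreath product of `G` with the cyclic group of order `r` in its regular action -/
abbrev WreathCyclic (G : Type) [Group G] (r : ℕ) : Type :=
  (Multiplicative (ZMod r) → G) ⋊[mulAutArrow (G := Multiplicative (ZMod r))
    (A := Multiplicative (ZMod r)) (M := G)] Multiplicative (ZMod r)

theorem counted_eq (p r k : ℕ) [Fact p.Prime] (hk : ¬ p ∣ k) (G : Type) [Group G] :
    counted p r k G = {χ | χ ∈ {χ | χ ∈ Pool.Agent.Q17.AM.Ip p G ∧
      Pool.Agent.Q17.AM.dcl p χ = Pool.Agent.Q17.AM.cls p k} ∧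
        ¬ r ∣ Pool.Agent.Q17.AM.nc χ} := by
  ext χ
  constructor
  · rintro ⟨h1, ⟨n, hn, h2⟩, h3⟩
    refine ⟨⟨h1, ?_⟩, h3⟩
    obtain ⟨-, m, hm, hpm⟩ := h1
    have h4 : n = m := by
      have : (n : ℂ) = m := hn.trans hm.symm
      exact_mod_cast this
    rw [Pool.Agent.Q17.AM.dcl_eq hn, Pool.Agent.Q17.AM.cls_eq (h4 ▸ hpm) hk]
    exact h2
  · rintro ⟨⟨h1, h2⟩, h3⟩
    refine ⟨h1, ?_, h3⟩
    obtain ⟨-, m, hm, hpm⟩ := h1
    rw [Pool.Agent.Q17.AM.dcl_eq hm, Pool.Agent.Q17.AM.cls_eq hpm hk] at h2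
    exact ⟨m, hm, h2⟩

/-- **Theorem.** Let `p` and `r ≠ p` be primes such that `r` does not divide `(p - 1) / 2`. Let `X` be
a class of groups closed under isomorphism and finite direct powers (for instance all groups, or all
abelian groups) and let `Y` be a class of finite groups closed under the wreath product with the cyclic
group of order `r` (for instance all finite groups, or the groups with nonabelian composition factors
in a given set). Suppose that for all `G` in `Y` with a Sylow `p`-subgroup `P` in `X` and all `k` prime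
to `p` the numbers of irreducible characters of `G` and of `N_G(P)` of degree congruent to `± k` modulo
`p` with a field of values of degree prime to `r` are congruent modulo `r`. Then for all these `G`, `P`
there is a bijection `f` from the set of irreducible characters of degree prime to `p` of `G` onto the
corresponding set for `N_G(P)` with `χ(1) ≡ ± (f χ)(1)` modulo `p` for all `χ`. -/
theorem result (p r : ℕ) [Fact p.Prime] [Fact r.Prime] (hpr : p ≠ r) (hr : ¬ r ∣ (p - 1) / 2)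
    (X Y : ∀ (P : Type) [Group P], Prop)
    (hX : ∀ (P Q : Type) [Group P] [Group Q], Nonempty (P ≃* Q) → X P → X Q)
    (hX' : ∀ (P : Type) [Group P] (n : ℕ), 1 ≤ n → X P → X (Fin n → P))
    (hY : ∀ (G : Type) [Group G] [Finite G], Y G → Y (WreathCyclic G r))
    (h : ∀ (G : Type) [Group G] [Finite G], Y G → ∀ P : Sylow p G, X P → ∀ k : ℕ, ¬ p ∣ k →
      ((counted p r k G).ncard : ℤ) ≡
        ((counted p r k (Subgroup.normalizer ((P : Subgroup G) : Set G))).ncard : ℤ) [ZMOD r])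
    (G : Type) [Group G] [Finite G] (hG : Y G) (P : Sylow p G) (hXP : X P) :
    ∃ f : irrPrime p G ≃ irrPrime p (Subgroup.normalizer ((P : Subgroup G) : Set G)),
      ∀ χ : irrPrime p G, ∀ n m : ℕ, (n : ℂ) = χ.1 1 → (m : ℂ) = (f χ).1 1 →
        (n : ZMod p) = m ∨ (n : ZMod p) = -m := by
  have hp2 : p ≠ 2 := by
    rintro rfl
    exact hr (dvd_zero r)
  have hF : Fintype G := Fintype.ofFinite G
  have key : ∀ k : Pool.Agent.Q17.AM.Cp p, ({χ | χ ∈ Pool.Agent.Q17.AM.Ip p G ∧
      Pool.Agent.Q17.AM.dcl p χ = k} : Set (G → ℂ)).ncard =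
      ({χ | χ ∈ Pool.Agent.Q17.AM.Ip p (Pool.Agent.Q17.AM.NN (P : Subgroup G)) ∧
        Pool.Agent.Q17.AM.dcl p χ = k} :
        Set (Pool.Agent.Q17.AM.NN (P : Subgroup G) → ℂ)).ncard := by
    refine Pool.Agent.Q17.AM.mcc p r hpr (by rw [Pool.Agent.Q17.AM.card_cp hp2]; exact hr)
      (fun G _ P => (Finite G → Y G) ∧ X P) ?_ ?_ G P ⟨fun _ => hG, hXP⟩
    · rintro G _ _ P ⟨h2, h3⟩
      refine ⟨fun _ => hY G (h2 inferInstance), hX _ _ ⟨(Pool.Agent.Q17.AM.eDw P).symm⟩ ?_⟩
      have : NeZero r := ⟨(Fact.out : r.Prime).ne_zero⟩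
      exact Pool.Agent.Q17.AM.Cl.fun (X := X) ⟨hX, hX'⟩ h3
    · rintro G _ _ P ⟨h2, h3⟩ k
      have hN : Fintype (Pool.Agent.Q17.AM.NN (P : Subgroup G)) := Fintype.ofFinite _
      obtain ⟨k, hk, rfl⟩ := Pool.Agent.Q17.AM.cls_surj k
      have gst : ∀ {H : Type} [Group H] [Fintype H], Pool.Agent.Q17.RB.Gst
          ({χ | χ ∈ Pool.Agent.Q17.AM.Ip p H ∧ Pool.Agent.Q17.AM.dcl p χ =
            Pool.Agent.Q17.AM.cls p k} : Set (H → ℂ)) := by
        intro H _ _
        refine Pool.Agent.Q17.AM.gst_of fun t χ h => ?_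
        obtain ⟨h4, h5⟩ := h
        obtain ⟨n, hn, -⟩ := h4.2
        have hn' : (n : ℂ) = (fun g => t (χ g)) 1 := by
          change (n : ℂ) = t (χ 1)
          rw [← hn, map_natCast]
        refine ⟨(Pool.Agent.Q237.AM.ip_gal t χ).mp h4, ?_⟩
        rw [Pool.Agent.Q17.AM.dcl_eq hn', ← Pool.Agent.Q17.AM.dcl_eq hn]
        exact h5
      refine Pool.Agent.Q17.AM.mod_of_nc
        ((Pool.Agent.Q17.AM.ip_finite p).subset fun χ h => h.1)
        ((Pool.Agent.Q17.AM.ip_finite p).subset fun χ h => h.1) gst gst ?_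
      have h4 := (h G (h2 inferInstance) P h3 k hk).symm.dvd
      rw [counted_eq p r k hk, counted_eq p r k hk] at h4
      exact h4
  -- the bijection
  have hN : Fintype (Pool.Agent.Q17.AM.NN (P : Subgroup G)) := Fintype.ofFinite _
  have hfin : ∀ {H : Type} [Group H] [Fintype H], Finite (irrPrime p H) := by
    intro H _ _
    exact (Pool.Agent.Q17.AM.ip_finite (G := H) p).to_subtype
  have hcard : ∀ {H : Type} [Group H] (k : Pool.Agent.Q17.AM.Cp p),
      Nat.card {χ : irrPrime p H // Pool.Agent.Q17.AM.dcl p χ.1 = k} =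
      ({χ | χ ∈ Pool.Agent.Q17.AM.Ip p H ∧ Pool.Agent.Q17.AM.dcl p χ = k} :
        Set (H → ℂ)).ncard := by
    intro H _ k
    rw [← Nat.card_coe_set_eq]
    exact Nat.card_congr ⟨fun x => ⟨x.1.1, x.1.2, x.2⟩, fun x => ⟨⟨x.1, x.2.1⟩, x.2.2⟩,
      fun x => rfl, fun x => rfl⟩
  have i1 : Finite (irrPrime p G) := hfin
  have i2 : Finite (irrPrime p (Subgroup.normalizer ((P : Subgroup G) : Set G))) :=
    hfin (H := Pool.Agent.Q17.AM.NN (P : Subgroup G))
  have he : ∀ k : Pool.Agent.Q17.AM.Cp p,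
      Nonempty ({χ : irrPrime p G // Pool.Agent.Q17.AM.dcl p χ.1 = k} ≃
        {χ : irrPrime p (Subgroup.normalizer ((P : Subgroup G) : Set G)) //
          Pool.Agent.Q17.AM.dcl p χ.1 = k}) := fun k =>
    Finite.card_eq.mp ((hcard k).trans ((key k).trans (hcard k).symm))
  let f : irrPrime p G ≃ irrPrime p (Subgroup.normalizer ((P : Subgroup G) : Set G)) :=
    Equiv.ofFiberEquiv (f := fun χ : irrPrime p G => Pool.Agent.Q17.AM.dcl p χ.1)
      (g := fun χ : irrPrime p (Subgroup.normalizer ((P : Subgroup G) : Set G)) =>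
        Pool.Agent.Q17.AM.dcl p χ.1) fun k => (he k).some
  refine ⟨f, fun χ n m hn hm => ?_⟩
  have h1 : Pool.Agent.Q17.AM.dcl p (f χ).1 = Pool.Agent.Q17.AM.dcl p χ.1 :=
    Equiv.ofFiberEquiv_map (f := fun χ : irrPrime p G => Pool.Agent.Q17.AM.dcl p χ.1)
      (g := fun χ : irrPrime p (Subgroup.normalizer ((P : Subgroup G) : Set G)) =>
        Pool.Agent.Q17.AM.dcl p χ.1) (fun k => (he k).some) χ
  obtain ⟨-, n', hn', hpn⟩ := χ.2
  obtain ⟨-, m', hm', hpm⟩ := (f χ).2
  have e1 : n = n' := by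
    have : (n : ℂ) = n' := hn.trans hn'.symm
    exact_mod_cast this
  have e2 : m = m' := by
    have : (m : ℂ) = m' := hm.trans hm'.symm
    exact_mod_cast this
  rw [Pool.Agent.Q17.AM.dcl_eq hn, Pool.Agent.Q17.AM.dcl_eq hm] at h1
  exact (Pool.Agent.Q17.AM.cls_eq (e1 ▸ hpn) (e2 ▸ hpm)).mp h1.symm

end Pool.Agent.Results.MP_5ecade_al.CongruenceModuloR
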