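import Pool.Agent.Q17.AM.Dpo

/-!
# McKay bijections with degrees congruent up to sign: one residue class is enough

`IsIrr χ` (from `Pool.Agent.H254R3.IN.Defs`) says that `χ` is an irreducible complex character.
-/

set_option autoImplicit false

open scoped Classical

namespace Pool.Agent.Results.MP_5ecade_al.OneResidueClass

open Pool.Agent.H254R3.IN (IsIrr)

/-- the irreducible characters of `G` of degree prime to `p` -/
def irrPrime (p : ℕ) (G : Type) [Group G] : Set (G → ℂ) :=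
  {χ | IsIrr χ ∧ ∃ n : ℕ, (n : ℂ) = χ 1 ∧ ¬ p ∣ n}

/-- the characters in `irrPrime p G` of degree congruent to `k` or `- k` modulo `p` -/
def counted (p k : ℕ) (G : Type) [Group G] : Set (G → ℂ) :=
  {χ | χ ∈ irrPrime p G ∧ ∃ n : ℕ, (n : ℂ) = χ 1 ∧ ((n : ZMod p) = k ∨ (n : ZMod p) = -k)}

theorem counted_eq (p k : ℕ) [Fact p.Prime] (hk : ¬ p ∣ k) (G : Type) [Group G] :
    counted p k G = {χ | χ ∈ Pool.Agent.Q17.AM.Ip p G ∧
      Pool.Agent.Q17.AM.dcl p χ = Pool.Agent.Q17.AM.cls p k} := by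
  ext χ
  constructor
  · rintro ⟨h1, n, hn, h2⟩
    refine ⟨h1, ?_⟩
    obtain ⟨-, m, hm, hpm⟩ := h1
    have h4 : n = m := by
      have : (n : ℂ) = m := hn.trans hm.symm
      exact_mod_cast this
    rw [Pool.Agent.Q17.AM.dcl_eq hn, Pool.Agent.Q17.AM.cls_eq (h4 ▸ hpm) hk]
    exact h2
  · rintro ⟨h1, h2⟩
    refine ⟨h1, ?_⟩
    obtain ⟨-, m, hm, hpm⟩ := h1
    rw [Pool.Agent.Q17.AM.dcl_eq hm, Pool.Agent.Q17.AM.cls_eq hpm hk] at h2
    exact ⟨m, hm, h2⟩

/-- **Theorem.** Let `p` be a prime. Let `X` be a class of groups closed under isomorphism (for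
instance all groups, or the groups isomorphic to a fixed one) and let `Y` be a class of finite groups
closed under direct products with finite solvable groups of order prime to `p`. Suppose that for every
`G` in `Y` with a Sylow `p`-subgroup `P` in `X` there is at least one number `k` prime to `p` such
that `G` and `N_G(P)` have the same number of irreducible characters of degree congruent to `± k`
modulo `p`. Then for all these `G`, `P` there is a bijection `f` from the set of irreducible characters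
of degree prime to `p` of `G` onto the corresponding set for `N_G(P)` with `χ(1) ≡ ± (f χ)(1)` modulo
`p` for all `χ`. -/
theorem result (p : ℕ) [Fact p.Prime] (X Y : ∀ (P : Type) [Group P], Prop)
    (hX : ∀ (P Q : Type) [Group P] [Group Q], Nonempty (P ≃* Q) → X P → X Q)
    (hY : ∀ (G H : Type) [Group G] [Finite G] [Group H] [Finite H], Group.IsSolvable H →
      ¬ p ∣ Nat.card H → Y G → Y (G × H))
    (h : ∀ (G : Type) [Group G] [Finite G], Y G → ∀ P : Sylow p G, X P → ∃ k : ℕ, ¬ p ∣ k ∧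
      (counted p k G).ncard =
        (counted p k (Subgroup.normalizer ((P : Subgroup G) : Set G))).ncard)
    (G : Type) [Group G] [Finite G] (hG : Y G) (P : Sylow p G) (hXP : X P) :
    ∃ f : irrPrime p G ≃ irrPrime p (Subgroup.normalizer ((P : Subgroup G) : Set G)),
      ∀ χ : irrPrime p G, ∀ n m : ℕ, (n : ℂ) = χ.1 1 → (m : ℂ) = (f χ).1 1 →
        (n : ZMod p) = m ∨ (n : ZMod p) = -m := by
  have hF : Fintype G := Fintype.ofFinite G
  have hyp : ∀ (G : Type) [Group G] [Fintype G] (P : Sylow p G), ((Finite G → Y G) ∧ X P) →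
      ∃ k : Pool.Agent.Q17.AM.Cp p, Pool.Agent.Q17.AM.dlt p G P k = 0 := by
    rintro G _ _ P ⟨h1, h2⟩
    obtain ⟨k, hk, h3⟩ := h G (h1 inferInstance) P h2
    refine ⟨Pool.Agent.Q17.AM.cls p k, ?_⟩
    rw [counted_eq p k hk, counted_eq p k hk] at h3
    unfold Pool.Agent.Q17.AM.dlt
    rw [sub_eq_zero]
    exact_mod_cast h3
  have key : ∀ k : Pool.Agent.Q17.AM.Cp p, ({χ | χ ∈ Pool.Agent.Q17.AM.Ip p G ∧
      Pool.Agent.Q17.AM.dcl p χ = k} : Set (G → ℂ)).ncard =
      ({χ | χ ∈ Pool.Agent.Q17.AM.Ip p (Pool.Agent.Q17.AM.NN (P : Subgroup G)) ∧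
        Pool.Agent.Q17.AM.dcl p χ = k} :
        Set (Pool.Agent.Q17.AM.NN (P : Subgroup G) → ℂ)).ncard := by
    have h0 : ∀ k : Pool.Agent.Q17.AM.Cp p, Pool.Agent.Q17.AM.dlt p G P k = 0 := by
      by_cases hp2 : p = 2
      · subst hp2
        intro k
        obtain ⟨k', hk'⟩ := hyp G P ⟨fun _ => hG, hXP⟩
        have hs : k = k' := by
          obtain ⟨n, hn, rfl⟩ := Pool.Agent.Q17.AM.cls_surj k
          obtain ⟨n', hn', rfl⟩ := Pool.Agent.Q17.AM.cls_surj k'
          refine (Pool.Agent.Q17.AM.cls_eq hn hn').mpr (Or.inl ?_)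
          rw [ZMod.natCast_eq_natCast_iff']
          omega
        rw [hs]
        exact hk'
      · refine Pool.Agent.Q17.AM.one_class hp2 (fun G _ P => (Finite G → Y G) ∧ X P) ?_ hyp G P
          ⟨fun _ => hG, hXP⟩
        rintro G _ _ P ⟨h1, h2⟩ H _ _ hH hpH
        refine ⟨fun _ => hY G H hH hpH (h1 inferInstance), hX P _ ⟨?_⟩ h2⟩
        exact ((Subgroup.prodEquiv P (⊥ : Subgroup H)).trans MulEquiv.prodUnique).symm
    intro k
    have h1 := h0 k
    unfold Pool.Agent.Q17.AM.dlt at h1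
    rw [sub_eq_zero] at h1
    exact_mod_cast h1
  -- the bijection
  have hN : Fintype (Pool.Agent.Q17.AM.NN (P : Subgroup G)) := Fintype.ofFinite _
  have hfin : ∀ {H : Type} [Group H] [Fintype H], Finite (irrPrime p H) := by
    intro H _ _
    exact (Pool.Agent.Q17.AM.ip_finite (G := H) p).to_subtype
  have hcard : ∀ {H : Type} [Group H] (k : Pool.Agent.Q17.AM.Cp p),
      Nat.card {χ : irrPrime p H // Pool.Agent.Q17.AM.dcl p χ.1 = k} =
      ({χ | χ ∈ Pool.Agent.Q17.AM.Ip p H ∧ Pool.Agent.Q17.AM.dcl p χ = k} :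
        Set (H → ℂ)).ncard := by
    intro H _ k
    rw [← Nat.card_coe_set_eq]
    exact Nat.card_congr ⟨fun x => ⟨x.1.1, x.1.2, x.2⟩, fun x => ⟨⟨x.1, x.2.1⟩, x.2.2⟩,
      fun x => rfl, fun x => rfl⟩
  have i1 : Finite (irrPrime p G) := hfin
  have i2 : Finite (irrPrime p (Subgroup.normalizer ((P : Subgroup G) : Set G))) :=
    hfin (H := Pool.Agent.Q17.AM.NN (P : Subgroup G))
  have he : ∀ k : Pool.Agent.Q17.AM.Cp p,
      Nonempty ({χ : irrPrime p G // Pool.Agent.Q17.AM.dcl p χ.1 = k} ≃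
        {χ : irrPrime p (Subgroup.normalizer ((P : Subgroup G) : Set G)) //
          Pool.Agent.Q17.AM.dcl p χ.1 = k}) := fun k =>
    Finite.card_eq.mp ((hcard k).trans ((key k).trans (hcard k).symm))
  let f : irrPrime p G ≃ irrPrime p (Subgroup.normalizer ((P : Subgroup G) : Set G)) :=
    Equiv.ofFiberEquiv (f := fun χ : irrPrime p G => Pool.Agent.Q17.AM.dcl p χ.1)
      (g := fun χ : irrPrime p (Subgroup.normalizer ((P : Subgroup G) : Set G)) =>
        Pool.Agent.Q17.AM.dcl p χ.1) fun k => (he k).some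
  refine ⟨f, fun χ n m hn hm => ?_⟩
  have h1 : Pool.Agent.Q17.AM.dcl p (f χ).1 = Pool.Agent.Q17.AM.dcl p χ.1 :=
    Equiv.ofFiberEquiv_map (f := fun χ : irrPrime p G => Pool.Agent.Q17.AM.dcl p χ.1)
      (g := fun χ : irrPrime p (Subgroup.normalizer ((P : Subgroup G) : Set G)) =>
        Pool.Agent.Q17.AM.dcl p χ.1) (fun k => (he k).some) χ
  obtain ⟨-, n', hn', hpn⟩ := χ.2
  obtain ⟨-, m', hm', hpm⟩ := (f χ).2
  have e1 : n = n' := by
    have : (n : ℂ) = n' := hn.trans hn'.symm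
    exact_mod_cast this
  have e2 : m = m' := by
    have : (m : ℂ) = m' := hm.trans hm'.symm
    exact_mod_cast this
  rw [Pool.Agent.Q17.AM.dcl_eq hn, Pool.Agent.Q17.AM.dcl_eq hm] at h1
  exact (Pool.Agent.Q17.AM.cls_eq (e1 ▸ hpn) (e2 ▸ hpm)).mp h1.symm

end Pool.Agent.Results.MP_5ecade_al.OneResidueClass
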