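import Pool.Agent.Q17.TC.All

/-!
# McKay bijections relative to a normal subgroup, for a self-centralising coset

`N` is a normal subgroup of an arbitrary finite group `G` and `y` is a `p`-element of order `p`
modulo `N` which is central modulo `N`. No condition on `G / N` is made besides this. The
hypothesis is on the centralisers in `N` of the `p`-elements of the coset `yN` only.
-/

open scoped Classical
open Pool.Agent.H254R3.IN

namespace Pool.Agent.Results.MP_5ecade_al.RelativeCosets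

/-- The irreducible characters of `G` of degree prime to `p`. -/
def IrrPrime (p : ℕ) (G : Type) [Group G] : Set (G → ℂ) :=
  {χ | IsIrr χ ∧ ∃ n : ℕ, (n : ℂ) = χ 1 ∧ ¬ p ∣ n}

/-- There is a bijection `Irr_{p'}(K) → Irr_{p'}(L)`, `χ ↦ χ*`, with `χ(1) ≡ ± χ*(1)` modulo `p`. -/
def McKayCongruent (p : ℕ) (K L : Type) [Group K] [Group L] : Prop :=
  ∃ f : IrrPrime p K ≃ IrrPrime p L, ∀ (χ : IrrPrime p K) (n m : ℕ), (n : ℂ) = (χ : K → ℂ) 1 →
    (m : ℂ) = (f χ : L → ℂ) 1 → (n : ℤ) ≡ m [ZMOD p] ∨ (n : ℤ) ≡ -m [ZMOD p]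

/-- The irreducible characters of the normal subgroup `N` which are invariant under `y`. -/
def Inv {G : Type} [Group G] (N : Subgroup G) [N.Normal] (y : G) : Type :=
  {θ : N → ℂ // IsIrr θ ∧ ∀ n : N, θ (MulAut.conjNormal y n) = θ n}

/-- The character `χ` of `G` lies over the irreducible character `θ` of `N`: their inner product on
`N` is not zero. -/
def LiesOver {G : Type} [Group G] [Fintype G] (N : Subgroup G) (χ : G → ℂ) (θ : N → ℂ) : Prop :=
  ∑ n : N, χ n * θ n⁻¹ ≠ 0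

/-- The irreducible characters of `G` which lie over a `y`-invariant irreducible character of
`N`. -/
def Above {G : Type} [Group G] [Fintype G] (N : Subgroup G) [N.Normal] (y : G) : Type :=
  {χ : G → ℂ // IsIrr χ ∧ ∃ θ : Inv N y, LiesOver N χ θ.1}

/-- The hypotheses on `(G, N, y, P, H)`: `y ∈ P` has order `p` modulo `N` and is central modulo `N`;
`H` contains the Sylow `p`-subgroup `P` and `C_N(x)` for all `x ∈ P ∩ yN`, and `G = NH`. -/
def Hyp {G : Type} [Group G] (p : ℕ) (N : Subgroup G) (y : G) (P : Sylow p G) (H : Subgroup G) :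
    Prop :=
  (y ∈ P ∧ y ∉ N ∧ y ^ p ∈ N ∧ ∀ g : G, g * y * g⁻¹ * y⁻¹ ∈ N) ∧
    (P : Subgroup G) ≤ H ∧ (∀ g : G, ∃ n ∈ N, ∃ h ∈ H, g = n * h) ∧
    ∀ x ∈ P, y⁻¹ * x ∈ N → ∀ n ∈ N, Commute n x → n ∈ H

/-- `θ` (a character of `N`) and `η` (a character of `N ∩ H`) correspond: they have irreducible
extensions `θ'`, `η'` to `N⟨y⟩` and `N⟨y⟩ ∩ H` which agree up to a sign `ε` outside `N`, and
`θ(1) ≡ ε η(1)` modulo `p`. -/
def Correspond {G : Type} [Group G] (p : ℕ) (N H : Subgroup G) (y : G) (θ : N → ℂ)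
    (η : N.subgroupOf H → ℂ) : Prop :=
  ∃ (θ' : (N ⊔ Subgroup.zpowers y : Subgroup G) → ℂ)
    (η' : (N ⊔ Subgroup.zpowers y).subgroupOf H → ℂ) (ε : ℤ), IsIrr θ' ∧ IsIrr η' ∧
    (∀ (n : N) (hn : (n : G) ∈ N ⊔ Subgroup.zpowers y), θ' ⟨n, hn⟩ = θ n) ∧
    (∀ (m : N.subgroupOf H) (hm : (m : H) ∈ (N ⊔ Subgroup.zpowers y).subgroupOf H),
      η' ⟨m, hm⟩ = η m) ∧ (ε = 1 ∨ ε = -1) ∧
    (∀ (h : H) (hk : (h : G) ∈ N ⊔ Subgroup.zpowers y)
      (hk' : h ∈ (N ⊔ Subgroup.zpowers y).subgroupOf H), (h : G) ∉ N →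
        θ' ⟨h, hk⟩ = ε * η' ⟨h, hk'⟩) ∧
    ∀ a b : ℕ, (a : ℂ) = θ 1 → (b : ℂ) = η 1 → (a : ℤ) ≡ ε * b [ZMOD p]

/-- The bijections `F` and `f` are compatible: `χ` lies over `θ` if and only if `f χ` lies over
`F θ`, and then `χ(1) / θ(1) = (f χ)(1) / (F θ)(1)`. -/
def Compatible {G : Type} [Group G] [Fintype G] {N H : Subgroup G} [N.Normal] {y : G}
    {hyH : y ∈ H} (F : Inv N y ≃ Inv (N.subgroupOf H) ⟨y, hyH⟩)
    (f : Above N y ≃ Above (N.subgroupOf H) ⟨y, hyH⟩) : Prop :=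
  (∀ χ θ, LiesOver N χ.1 θ.1 ↔ LiesOver (N.subgroupOf H) (f χ).1 (F θ).1) ∧
    ∀ χ θ, LiesOver N χ.1 θ.1 → (f χ).1 1 / (F θ).1 1 = χ.1 1 / θ.1 1

/-- `g : Irr_{p'}(G) → Irr_{p'}(H)` is a restriction of `f`, and `χ(1) ≡ ± (g χ)(1)` modulo `p`. -/
def Restricts {G : Type} [Group G] [Fintype G] {p : ℕ} {N H : Subgroup G} [N.Normal] {y : G}
    {hyH : y ∈ H} (f : Above N y ≃ Above (N.subgroupOf H) ⟨y, hyH⟩)
    (g : IrrPrime p G ≃ IrrPrime p H) : Prop :=
  (∀ χ : IrrPrime p G, ∃ χ' : Above N y, χ'.1 = (χ : G → ℂ) ∧ (f χ').1 = (g χ : H → ℂ)) ∧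
    ∀ χ : IrrPrime p G, ∃ ε : ℤ, (ε = 1 ∨ ε = -1) ∧
      ∀ n m : ℕ, (n : ℂ) = (χ : G → ℂ) 1 → (m : ℂ) = (g χ : H → ℂ) 1 → (n : ℤ) ≡ ε * m [ZMOD p]

theorem mc_trans {p : ℕ} {K L M : Type} [Group K] [Group L] [Group M]
    (h1 : McKayCongruent p K L) (h2 : McKayCongruent p L M) : McKayCongruent p K M := by
  obtain ⟨f, hf⟩ := h1
  obtain ⟨g, hg⟩ := h2
  refine ⟨f.trans g, fun χ n m hn hm => ?_⟩
  obtain ⟨k, -, hk⟩ := (f χ).2.1.deg
  have h3 := hf χ n k hn hk
  have h4 := hg (f χ) k m hk hm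
  rcases h3 with h3 | h3 <;> rcases h4 with h4 | h4
  · exact Or.inl (h3.trans h4)
  · exact Or.inr (h3.trans h4)
  · exact Or.inr (h3.trans h4.neg)
  · exact Or.inl (by
      have := h3.trans h4.neg
      rwa [neg_neg] at this)

theorem mc_symm {p : ℕ} {K L : Type} [Group K] [Group L] (h1 : McKayCongruent p K L) :
    McKayCongruent p L K := by
  obtain ⟨f, hf⟩ := h1
  refine ⟨f.symm, fun χ n m hn hm => ?_⟩
  have h := hf (f.symm χ) m n hm (by rw [Equiv.apply_symm_apply]; exact hn)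
  rcases h with h | h
  · exact Or.inl h.symm
  · exact Or.inr (by
      have := h.neg.symm
      rwa [neg_neg] at this)

theorem ov_iff {G : Type} [Group G] [Fintype G] {N : Subgroup G} {χ : G → ℂ} {θ : N → ℂ} :
    LiesOver N χ θ ↔ Pool.Agent.Q17.TC.Ov N χ θ := by
  unfold LiesOver Pool.Agent.Q17.TC.Ov Pool.Agent.Helper884.IC.B
  rw [ne_eq, ne_eq, mul_eq_zero, inv_eq_zero]
  constructor
  · intro h h1
    rcases h1 with h1 | h1
    · exact Pool.Agent.Helper884.IC.cardG_ne h1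
    · exact h h1
  · intro h h1
    exact h (Or.inr h1)

/-- comparison of the two definitions -/
def cmp {G : Type} [Group G] [Fintype G] (N : Subgroup G) [N.Normal] (y : G) :
    Above N y ≃ Pool.Agent.Q17.TC.Ab N y where
  toFun χ := ⟨χ.1, χ.2.1, by
    obtain ⟨θ, hθ⟩ := χ.2.2
    exact ⟨θ, ov_iff.mp hθ⟩⟩
  invFun χ := ⟨χ.1, χ.2.1, by
    obtain ⟨θ, hθ⟩ := χ.2.2
    exact ⟨θ, ov_iff.mpr hθ⟩⟩
  left_inv _ := rfl
  right_inv _ := rfl

/-- **Theorem.** Let `G` be a finite group, `N` a normal subgroup, `P` a Sylow `p`-subgroup of `G`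
and `y ∈ P ∖ N` with `y ^ p ∈ N` and `[G, y] ≤ N` (so `G / N` is arbitrary, with a central subgroup
of order `p`). Let `H ≥ P` be a subgroup with `G = NH` and `C_N(x) ≤ H` for all `x ∈ P ∩ yN`. Then
(1) `N_G(P)` is contained in `H`;
(2) there are an `H`-equivariant bijection `F` from the `y`-invariant irreducible characters of `N`
onto those of `N ∩ H` and a bijection `f` from the irreducible characters of `G` over `y`-invariant
characters of `N` onto those of `H` over `y`-invariant characters of `N ∩ H`, such that for all `θ`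
(a) `θ` and `F θ` have extensions to `N⟨y⟩` and `N⟨y⟩ ∩ H` that agree up to a sign `ε` outside `N`,
and `θ(1) ≡ ε (F θ)(1)` modulo `p`;
(b) `χ` lies over `θ` if and only if `f χ` lies over `F θ`, and then
`χ(1) / θ(1) = (f χ)(1) / (F θ)(1)`;
(c) every irreducible character of `G` of degree prime to `p` is in the domain of `f`, and `f` maps
these onto the irreducible characters of `H` of degree prime to `p`, with `χ(1) ≡ ± (f χ)(1)`
modulo `p`;
(3) Q1 holds for `(G, P)` if and only if it holds for `(H, P)`;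
(4) Q1 holds for `(G, P)` if the assumptions on `H` hold for `N_G(P)`. -/
theorem result (G : Type) [Group G] [Fintype G] (p : ℕ) [Fact p.Prime] (N H : Subgroup G)
    [N.Normal] (P : Sylow p G) (y : G) (hyp : Hyp p N y P H) (hyH : y ∈ H) :
    Subgroup.normalizer ((P : Subgroup G) : Set G) ≤ H ∧
    (∃ (F : Inv N y ≃ Inv (N.subgroupOf H) ⟨y, hyH⟩)
      (f : Above N y ≃ Above (N.subgroupOf H) ⟨y, hyH⟩) (g : IrrPrime p G ≃ IrrPrime p H),
      (∀ (h : H) (θ θ' : Inv N y), (∀ n, θ'.1 n = θ.1 (MulAut.conjNormal (h : G) n)) →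
        ∀ m, (F θ').1 m = (F θ).1 (MulAut.conjNormal h m)) ∧
      (∀ θ, Correspond p N H y θ.1 (F θ).1) ∧ Compatible F f ∧ Restricts f g) ∧
    (∀ hPH : (P : Subgroup G) ≤ H,
      McKayCongruent p G (Subgroup.normalizer ((P : Subgroup G) : Set G)) ↔
      McKayCongruent p H
        (Subgroup.normalizer (((P.subtype hPH : Sylow p H) : Subgroup H) : Set H))) ∧
    (Hyp p N y P (Subgroup.normalizer ((P : Subgroup G) : Set G)) →
      McKayCongruent p G (Subgroup.normalizer ((P : Subgroup G) : Set G))) := by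
  have toTD : ∀ {L : Subgroup G}, Hyp p N y P L → Pool.Agent.Q17.TC.TD p N y L P :=
    fun {L} h => ⟨inferInstance, h.1.2.1, h.1.2.2.1, h.1.2.2.2, h.1.1, h.2.1, h.2.2.1, h.2.2.2⟩
  have d := toTD hyp
  have hNH := (Pool.Agent.Q17.TC.main Pool.Agent.Q17.TC.parts d).1
  have key : ∀ {L : Subgroup G}, Pool.Agent.Q17.TC.TD p N y L P → McKayCongruent p G L := by
    intro L d'
    obtain ⟨-, F, f, g, -, -, -, -, -, h1⟩ := Pool.Agent.Q17.TC.main Pool.Agent.Q17.TC.parts d'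
    refine ⟨g, fun χ n m hn hm => ?_⟩
    obtain ⟨ε, hε, h2⟩ := h1 χ
    have h3 := h2 n m hn hm
    rcases hε with h | h
    · left
      rwa [h, one_mul] at h3
    · right
      rwa [h, neg_one_mul] at h3
  refine ⟨hNH, ?_, ?_, fun h => key (toTD h)⟩
  · obtain ⟨-, F, f, g, h1, h2, h3, h4, h5, h6⟩ :=
      Pool.Agent.Q17.TC.main Pool.Agent.Q17.TC.parts d
    refine ⟨F, (cmp N y).trans (f.trans (cmp (N.subgroupOf H) ⟨y, hyH⟩).symm), g, h2, ?_,
      ⟨?_, ?_⟩, ⟨?_, h6⟩⟩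
    · intro θ
      obtain ⟨ε, hε, h7⟩ := d.deg_cong Pool.Agent.Q17.TC.parts.kc (h1 θ)
      obtain ⟨θ', η', ε', r⟩ := h1 θ
      refine ⟨θ', η', ε', r.ext, r.ext', fun n hn => r.res n, fun m hm => r.res' m, ?_,
        fun h hk hk' hn => r.val h hk hn, fun a b ha hb => ?_⟩
      · rcases r.sgn with h | h
        · exact Or.inl h
        · exact Or.inr h.1
      · exact (Pool.Agent.Q17.TC.parts.kc G p N y H P d).2.2.2 θ' η' ε' r.ext r.ext' r.val a b
          (ha.trans (r.res 1).symm) (hb.trans (r.res' 1).symm)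
    · intro χ θ
      exact ov_iff.trans ((h3 (cmp N y χ) θ).trans ov_iff.symm)
    · intro χ θ ho
      have h7 := h4 (cmp N y χ) θ (ov_iff.mp ho)
      have h8 : θ.1 1 ≠ 0 := θ.2.1.one_ne
      have h9 : (F θ).1 1 ≠ 0 := (F θ).2.1.one_ne
      exact (div_eq_div_iff h9 h8).mpr h7
    · intro χ
      obtain ⟨χ', h7, h8⟩ := h5 χ
      exact ⟨(cmp N y).symm χ', h7, h8⟩
  · intro hPH
    have e : McKayCongruent p
        (Subgroup.normalizer (((P.subtype hPH : Sylow p H) : Subgroup H) : Set H))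
        (Subgroup.normalizer ((P : Subgroup G) : Set G)) := by
      refine ⟨Pool.Agent.Q1.MK.trn (Pool.Agent.Q1.MK.nrm P hPH hNH), fun χ n m hn hm => Or.inl ?_⟩
      have h3 : (m : ℂ) = n := by
        rw [hn, hm]
        exact Pool.Agent.Q1.MK.trn_one _ χ
      have h4 : m = n := by exact_mod_cast h3
      rw [h4]
    exact ⟨fun h => mc_trans (mc_symm (key d)) (mc_trans h (mc_symm e)),
      fun h => mc_trans (key d) (mc_trans h e)⟩

end Pool.Agent.Results.MP_5ecade_al.RelativeCosets
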