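import Pool.Agent.Q1.MK.Trn

/-!
# McKay bijections with degrees congruent up to sign, for groups with a self-centralising coset

All primes `p`, all finite groups `G` with a cyclic quotient `G / N` of `p`-power order. The
hypothesis is on the centralisers of the `p`-elements of one coset `yN` only.
-/

namespace Pool.Agent.Results.MP_5ecade_al.SelfCentralisingCosets

open Pool.Agent.H254R3.IN

/-- The irreducible characters of `G` of degree prime to `p`. -/
def IrrPrime (p : ℕ) (G : Type) [Group G] : Set (G → ℂ) :=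
  {χ | IsIrr χ ∧ ∃ n : ℕ, (n : ℂ) = χ 1 ∧ ¬ p ∣ n}

/-- There is a bijection `Irr_{p'}(K) → Irr_{p'}(L)`, `χ ↦ χ*`, with `χ(1) ≡ ± χ*(1)` modulo `p`. -/
def McKayCongruent (p : ℕ) (K L : Type) [Group K] [Group L] : Prop :=
  ∃ f : IrrPrime p K ≃ IrrPrime p L, ∀ (χ : IrrPrime p K) (n m : ℕ), (n : ℂ) = (χ : K → ℂ) 1 →
    (m : ℂ) = (f χ : L → ℂ) 1 → (n : ℤ) ≡ m [ZMOD p] ∨ (n : ℤ) ≡ -m [ZMOD p]

open Pool.Agent.Q1.MK in
theorem mc_trans {p : ℕ} {K L M : Type} [Group K] [Group L] [Group M]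
    (h1 : McKayCongruent p K L) (h2 : McKayCongruent p L M) : McKayCongruent p K M := by
  obtain ⟨f, hf⟩ := h1
  obtain ⟨g, hg⟩ := h2
  refine ⟨f.trans g, fun χ n m hn hm => ?_⟩
  obtain ⟨k, -, hk⟩ := (f χ).2.1.deg
  have h3 := hf χ n k hn hk
  have h4 := hg (f χ) k m hk hm
  rcases h3 with h3 | h3 <;> rcases h4 with h4 | h4
  · exact Or.inl (h3.trans h4)
  · exact Or.inr (h3.trans h4)
  · exact Or.inr (h3.trans h4.neg)
  · exact Or.inl (by
      have := h3.trans h4.neg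
      rwa [neg_neg] at this)

open Pool.Agent.Q1.MK in
theorem mc_symm {p : ℕ} {K L : Type} [Group K] [Group L] (h1 : McKayCongruent p K L) :
    McKayCongruent p L K := by
  obtain ⟨f, hf⟩ := h1
  refine ⟨f.symm, fun χ n m hn hm => ?_⟩
  have h := hf (f.symm χ) m n hm (by rw [Equiv.apply_symm_apply]; exact hn)
  rcases h with h | h
  · exact Or.inl h.symm
  · exact Or.inr (by
      have := h.neg.symm
      rwa [neg_neg] at this)

/-- **Theorem.** Let `G` be a finite group, `N` a proper normal subgroup, `P` a Sylow `p`-subgroup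
of `G` and `y ∈ P` such that `G = N⟨y⟩`. Let `H` be a subgroup of `G` which contains `P` and the
centraliser in `G` of every element of `P ∩ yN`. Then
(1) `N_G(P)` is contained in `H`;
(2) there is a bijection `f : Irr_{p'}(G) → Irr_{p'}(H)` such that for each `χ` there is a sign `ε`
with `χ(k) = ε f(χ)(k)` for all `k ∈ H ∩ yN` and `χ(1) ≡ ε f(χ)(1)` modulo `p`; and `f` commutes with
every automorphism of `G` that stabilises `N`, the coset `yN` and `H`;
(3) Q1 holds for `(G, P)` if and only if it holds for `(H, P)`;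
(4) in particular, Q1 holds for `(G, P)` if the centraliser of every element of `P ∩ yN` is
contained in `N_G(P)`. -/
theorem result (G : Type) [Group G] [Finite G] (p : ℕ) [Fact p.Prime]
    (N H : Subgroup G) (hN : N.Normal) (hNt : N ≠ ⊤) (P : Sylow p G) (y : G) (hy : y ∈ P)
    (hgen : N ⊔ Subgroup.zpowers y = ⊤) (hPH : (P : Subgroup G) ≤ H)
    (hC : ∀ x ∈ P, y⁻¹ * x ∈ N → Subgroup.centralizer ({x} : Set G) ≤ H) :
    Subgroup.normalizer ((P : Subgroup G) : Set G) ≤ H ∧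
    (∃ f : IrrPrime p G ≃ IrrPrime p H,
      (∀ χ : IrrPrime p G, ∃ ε : ℤ, (ε = 1 ∨ ε = -1) ∧
        (∀ k : H, y⁻¹ * (k : G) ∈ N → (χ : G → ℂ) k = ε * (f χ : H → ℂ) k) ∧
        ∀ n m : ℕ, (n : ℂ) = (χ : G → ℂ) 1 → (m : ℂ) = (f χ : H → ℂ) 1 →
          (n : ℤ) ≡ ε * m [ZMOD p]) ∧
      ∀ (α : G ≃* G), (∀ g, α g ∈ N ↔ g ∈ N) → y⁻¹ * α y ∈ N → ∀ hH : (∀ g, α g ∈ H ↔ g ∈ H),
        ∀ χ : IrrPrime p G, ∃ h : (fun g => (χ : G → ℂ) (α g)) ∈ IrrPrime p G,
          (f ⟨fun g => (χ : G → ℂ) (α g), h⟩ : H → ℂ) =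
            fun k : H => (f χ : H → ℂ) ⟨α k, (hH k).2 k.2⟩) ∧
    (McKayCongruent p G (Subgroup.normalizer ((P : Subgroup G) : Set G)) ↔
      McKayCongruent p H
        (Subgroup.normalizer (((P.subtype hPH : Sylow p H) : Subgroup H) : Set H))) ∧
    ((∀ x ∈ P, y⁻¹ * x ∈ N → Subgroup.centralizer ({x} : Set G) ≤
        Subgroup.normalizer ((P : Subgroup G) : Set G)) →
      McKayCongruent p G (Subgroup.normalizer ((P : Subgroup G) : Set G))) := by
  have := Fintype.ofFinite G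
  have d : Pool.Agent.Q21.CO.Dat p N y H P := ⟨hN, hNt, hgen, hy, hPH, hC⟩
  have hNH := Pool.Agent.Q1.MK.norm_le d
  have key : ∀ {L : Subgroup G}, Pool.Agent.Q21.CO.Dat p N y L P → McKayCongruent p G L := by
    intro L d'
    obtain ⟨f, h1, -⟩ := Pool.Agent.Q1.MK.corr d'
    refine ⟨f, fun χ n m hn hm => ?_⟩
    obtain ⟨ε, hε, -, h2⟩ := h1 χ
    have h3 := h2 n m hn hm
    rcases hε with h | h
    · left
      rwa [h, one_mul] at h3
    · right
      rwa [h, neg_one_mul] at h3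
  obtain ⟨f, h1, -, h2, -⟩ := Pool.Agent.Q1.MK.corr d
  have e : McKayCongruent p
      (Subgroup.normalizer (((P.subtype hPH : Sylow p H) : Subgroup H) : Set H))
      (Subgroup.normalizer ((P : Subgroup G) : Set G)) := by
    refine ⟨Pool.Agent.Q1.MK.trn (Pool.Agent.Q1.MK.nrm P hPH hNH), fun χ n m hn hm => Or.inl ?_⟩
    have h3 : (m : ℂ) = n := by
      rw [hn, hm]
      exact Pool.Agent.Q1.MK.trn_one _ χ
    have h4 : m = n := by exact_mod_cast h3
    rw [h4]
  refine ⟨hNH, ⟨f, h1, h2⟩, ⟨fun h => ?_, fun h => ?_⟩, fun h => ?_⟩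
  · exact mc_trans (mc_symm (key d)) (mc_trans h (mc_symm e))
  · exact mc_trans (key d) (mc_trans h e)
  · exact key ⟨hN, hNt, hgen, hy, Subgroup.le_normalizer, h⟩

end Pool.Agent.Results.MP_5ecade_al.SelfCentralisingCosets
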